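import Pool.Agent.helper51.VR.Spec

/-!
# Project vr (MP_24e2e7_nt): row ENL
-/

set_option autoImplicit false

namespace Pool.Agent.VR

open Pool.Agent.RB NumberField IsDedekindDomain Module
open scoped nonZeroDivisors Real Classical IsMulCommutative

theorem ENL (hADD : ADD_stmt) (hFCT : FCT_stmt) : ENL_stmt := by
  intro F H _ _ _ _ _ _ _ r₀ r D₀ D hS hT hgen Θ hΘ hR
  have hORD := ORD H
  have key : ∀ k : ℕ, k ≤ r → ∃ (s : ℕ) (E : RData F H s), E.S = D.S ∧ E.T = D.T ∧ Set.range D₀.v ⊆ Set.range E.v ∧
      (∀ i : Fin r, (i : ℕ) < k → D.v i ∈ Set.range E.v) ∧ Rub E Θ := by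
    intro k
    induction k with
    | zero =>
      intro _
      exact ⟨r₀, D₀, hS, hT, subset_rfl, fun i hi => absurd hi (Nat.not_lt_zero _), hR⟩
    | succ k ih =>
      intro hk
      obtain ⟨s, E, hES, hET, hE0, hEk, hER⟩ := ih (by omega)
      let i₀ : Fin r := ⟨k, by omega⟩
      by_cases hv : D.v i₀ ∈ Set.range E.v
      · refine ⟨s, E, hES, hET, hE0, fun i hi => ?_, hER⟩
        rcases Nat.lt_succ_iff_lt_or_eq.1 hi with h | h
        · exact hEk i h
        · have h2 : i = i₀ := Fin.ext h
          rw [h2]
          exact hv
      · have hvS : D.v i₀ ∉ E.S := by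
          rw [hES]
          exact D.hvS i₀
        have hvT : D.v i₀ ∉ E.T := by
          rw [hET]
          exact D.hvT i₀
        have hv0 : D.v i₀ ∉ Set.range D₀.v := fun h => hv (hE0 h)
        let E' : RData F H (s + 1) := addP E (D.v i₀) (D.w i₀) hv hvS hvT (D.hvs i₀) (D.hw i₀)
        have hE'v0 : E'.v 0 = D.v i₀ := rfl
        have hE'w0 : E'.w 0 = D.w i₀ := rfl
        have hE'vs : ∀ i : Fin s, E'.v i.succ = E.v i := fun i => rfl
        have hrange : Set.range E.v ⊆ Set.range E'.v := by
          rintro _ ⟨i, rfl⟩
          exact ⟨i.succ, rfl⟩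
        obtain ⟨d, x, hd, hx1, hx2, hx3⟩ := hgen i₀ hv0
        have hc : D.c = E'.c := RData_c_eq D E'
        obtain ⟨-, hc1, hst, -, hUU, -⟩ := hFCT F H (s + 1) E'
        have hxU : x ∈ UU E' := by
          rw [hUU]
          refine ⟨fun P hP => hx2 P ?_, fun P hP => ?_⟩
          · have h : P.under (𝓞 F) ∈ E.T := hP
            rw [hET] at h
            exact h
          · have h1 : P.under (𝓞 F) ∉ Set.range D₀.v := fun h => hP (hrange (hE0 h))
            have hPv : P.under (𝓞 F) ≠ D.v i₀ := fun h => hP ⟨0, by rw [hE'v0, h]⟩
            rw [hx3 P h1, if_neg, if_neg]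
            · intro h
              apply hPv
              rw [h, hORD.2.2.2.2.2.2.2.2 F (D.c : H ≃+* H) (D.w i₀) (fun x => D.c.commutes x), D.hw]
            · intro h
              apply hPv
              rw [h, D.hw]
        have hER' : Rub E' Θ := by
          have hΘ' : sg E.c * Θ = -Θ := by
            rw [RData_c_eq E D]
            exact hΘ
          refine hADD F H s E E' rfl rfl (fun i => ⟨rfl, rfl⟩) ⟨d, x, hd, hxU, ?_, ?_⟩ Θ hΘ' hER
          · rw [← hc]
            exact hx1
          · apply MonoidAlgebra.coeff_injective
            ext τ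
            obtain ⟨-, -, -, -, hcoef⟩ := vr_orz F H (E'.w 0)
            rw [hcoef (x : H) τ, hE'w0]
            have h1 : (act (τ : H ≃+* H) (D.w i₀)).under (𝓞 F) = D.v i₀ := by
              rw [hORD.2.2.2.2.2.2.2.2 F (τ : H ≃+* H) (D.w i₀) (fun x => τ.commutes x), D.hw]
            have h2 : (act (τ : H ≃+* H) (D.w i₀)).under (𝓞 F) ∉ Set.range D₀.v := by
              rw [h1]
              exact hv0
            rw [hx3 _ h2]
            have h3 : (act (τ : H ≃+* H) (D.w i₀) = D.w i₀) ↔ τ = 1 := by
              constructor
              · intro h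
                exact (hst 0 0 τ (by rw [hE'w0]; exact h)).2
              · intro h
                subst h
                exact hORD.2.2.2.2.2.2.1 (D.w i₀)
            have h4 : (act (τ : H ≃+* H) (D.w i₀) = act (D.c : H ≃+* H) (D.w i₀)) ↔ τ = E'.c := by
              constructor
              · intro h
                have hcc : ∀ y : H, D.c (D.c y) = y := by
                  intro y
                  rw [D.hc, D.hc]
                  exact IsCMField.complexConj_apply_apply H y
                have h5 : act ((D.c * τ : H ≃ₐ[F] H) : H ≃+* H) (D.w i₀) = D.w i₀ := by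
                  have e1 : ((D.c * τ : H ≃ₐ[F] H) : H ≃+* H) = (τ : H ≃+* H).trans (D.c : H ≃+* H) := by
                    ext y
                    rfl
                  rw [e1, hORD.2.2.2.2.2.2.2.1, h, ← hORD.2.2.2.2.2.2.2.1]
                  have e2 : (D.c : H ≃+* H).trans (D.c : H ≃+* H) = RingEquiv.refl H := by
                    ext y
                    exact hcc y
                  rw [e2, hORD.2.2.2.2.2.2.1]
                have h6 := (hst 0 0 (D.c * τ) (by rw [hE'w0]; exact h5)).2
                have h7 : τ = D.c := by
                  have h8 : D.c * (D.c * τ) = D.c * 1 := by rw [h6]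
                  have h9 : D.c * D.c = 1 := by
                    ext y
                    exact hcc y
                  rw [← mul_assoc, h9, one_mul, mul_one] at h8
                  exact h8
                rw [h7, hc]
              · intro h
                rw [h, ← hc]
            have h5 : (d • (1 - MonoidAlgebra.single E'.c 1) : MonoidAlgebra ℤ (H ≃ₐ[F] H)).coeff τ =
                (d : ℤ) * ((if τ = 1 then 1 else 0) - (if τ = E'.c then 1 else 0)) := by
              rw [MonoidAlgebra.coeff_smul, Finsupp.smul_apply, MonoidAlgebra.coeff_sub, Finsupp.sub_apply,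
                MonoidAlgebra.one_def, MonoidAlgebra.coeff_single, MonoidAlgebra.coeff_single, Finsupp.single_apply,
                Finsupp.single_apply, nsmul_eq_mul]
              simp only [eq_comm (b := τ)]
            rw [h5]
            by_cases t1 : τ = 1
            · have t2 : ¬ (τ = E'.c) := by
                rw [t1]
                exact fun h => hc1 h.symm
              rw [if_pos (h3.2 t1), if_pos t1, if_neg t2]
              ring
            · by_cases t2 : τ = E'.c
              · rw [if_neg (fun h => t1 (h3.1 h)), if_pos (h4.2 t2), if_neg t1, if_pos t2]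
                ring
              · rw [if_neg (fun h => t1 (h3.1 h)), if_neg (fun h => t2 (h4.1 h)), if_neg t1, if_neg t2]
                ring
        refine ⟨s + 1, E', hES, hET, hE0.trans hrange, fun i hi => ?_, hER'⟩
        rcases Nat.lt_succ_iff_lt_or_eq.1 hi with h | h
        · exact hrange (hEk i h)
        · have h2 : i = i₀ := Fin.ext h
          rw [h2]
          exact ⟨0, rfl⟩
  obtain ⟨s, E, h1, h2, -, h3, h4⟩ := key r le_rfl
  refine ⟨s, E, h1, h2, ?_, h4⟩
  rintro _ ⟨i, rfl⟩
  exact h3 i i.2

end Pool.Agent.VR
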