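import Pool.Agent.helper51.VR.SpecB

/-!
# Project vr (MP_24e2e7_nt): row FN1
-/

set_option autoImplicit false

namespace Pool.Agent.VR

open Pool.Agent.RB NumberField IsDedekindDomain Module
open scoped nonZeroDivisors Real Classical IsMulCommutative

theorem FN1 : FN1_stmt := by
  intro H _ _ T hT W hW
  obtain ⟨-, -, hval, -⟩ := ORD H
  have hindex : (Pr H).index ≠ 0 := by
    rw [fin_dcl H]
    exact classNumber_ne_zero H
  have hFI : (Pr H).FiniteIndex := ⟨hindex⟩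
  have hfin : Finite (Dv H ⧸ Pr H) := inferInstance
  rcases W.eq_empty_or_nonempty with hWe | hWe
  · subst hWe
    exact ⟨∅, by simp, fun P hP => absurd hP (Set.notMem_empty P)⟩
  let κ : HOS H → Dv H ⧸ Pr H := fun P => QuotientAddGroup.mk (Finsupp.single P 1)
  let rep : Dv H ⧸ Pr H → HOS H := fun C => if h : ∃ P ∈ W, κ P = C then h.choose else hWe.some
  have hrepW : ∀ C, rep C ∈ W := by
    intro C
    by_cases h : ∃ P ∈ W, κ P = C
    · simp only [rep, dif_pos h]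
      exact h.choose_spec.1
    · simp only [rep, dif_neg h]
      exact hWe.some_mem
  have hrep : ∀ P ∈ W, κ (rep (κ P)) = κ P := by
    intro P hP
    have h : ∃ P' ∈ W, κ P' = κ P := ⟨P, hP, rfl⟩
    simp only [rep, dif_pos h]
    exact h.choose_spec.2
  have hy : ∀ P : HOS H, ∃ y : H, P ∈ W → y ≠ 0 ∧
      ∀ Q : HOS H, ord Q y = (if Q = P then 1 else 0) - (if Q = rep (κ P) then 1 else 0) := by
    intro P
    by_cases hP : P ∈ W
    · have h1 := hrep P hP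
      have h2 : -(Finsupp.single (rep (κ P)) (1 : ℤ)) + Finsupp.single P 1 ∈ Pr H := QuotientAddGroup.eq.1 h1
      obtain ⟨y, hy0, hy1⟩ := h2
      refine ⟨y, fun _ => ⟨hy0, fun Q => ?_⟩⟩
      rw [← hy1 Q, Finsupp.add_apply, Finsupp.neg_apply, Finsupp.single_apply, Finsupp.single_apply]
      simp only [eq_comm (a := Q)]
      ring
    · exact ⟨1, fun h => absurd h hP⟩
  choose y hy using hy
  let f : HOS H → (Dv H ⧸ Pr H) × ((Q : T) → 𝓞 H ⧸ (Q : HOS H).asIdeal) :=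
    fun P => (κ P, fun Q => RES_r (Q : HOS H) (y P))
  have hTf : Finite T := hT.to_subtype
  have hq : ∀ Q : HOS H, Finite (𝓞 H ⧸ Q.asIdeal) := by
    intro Q
    apply Nat.finite_of_card_ne_zero
    rw [RES_card]
    have := RES_two_le Q
    omega
  have hcod : Finite ((Dv H ⧸ Pr H) × ((Q : T) → 𝓞 H ⧸ (Q : HOS H).asIdeal)) := inferInstance
  obtain ⟨s, hsW, hbij⟩ := Set.exists_subset_bijOn W f
  have hsf : s.Finite := Set.Finite.of_finite_image (Set.toFinite _) hbij.injOn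
  refine ⟨hsf.toFinset, fun P hP => hsW (hsf.mem_toFinset.1 hP), ?_⟩
  intro P hP
  obtain ⟨P', hP's, hP'⟩ := hbij.surjOn ⟨P, hP, rfl⟩
  have hP'W : P' ∈ W := hsW hP's
  have hκ : κ P' = κ P := congrArg Prod.fst hP'
  have hres : ∀ Q ∈ T, RES_r Q (y P') = RES_r Q (y P) := by
    intro Q hQ
    exact congrFun (congrArg Prod.snd hP') ⟨Q, hQ⟩
  obtain ⟨a1, a2⟩ := hy P hP
  obtain ⟨b1, b2⟩ := hy P' hP'W
  have hun : ∀ R ∈ W, ∀ Q ∈ T, Q.valuation H (y R) = 1 := by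
    intro R hR Q hQ
    obtain ⟨c1, c2⟩ := hy R hR
    rw [← hval _ _ c1, c2 Q]
    have e1 : Q ≠ R := fun h => hW R hR (h ▸ hQ)
    have e2 : Q ≠ rep (κ R) := fun h => hW _ (hrepW (κ R)) (h ▸ hQ)
    rw [if_neg e1, if_neg e2, sub_zero]
  refine ⟨P', hsf.mem_toFinset.2 hP's, y P * (y P')⁻¹, mul_ne_zero a1 (inv_ne_zero b1), ?_, ?_⟩
  · intro Q hQ
    have v1 := hun P hP Q hQ
    have v2 := hun P' hP'W Q hQ
    have v3 : Q.valuation H (y P')⁻¹ = 1 := by rw [map_inv₀, v2, inv_one]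
    apply RES_r_eq_one
    · rw [map_mul, v1, v3, mul_one]
    · rw [RES_r_mul Q _ _ v1.le v3.le, ← hres Q hQ, ← RES_r_mul Q _ _ v2.le v3.le, mul_inv_cancel₀ b1, RES_r_one]
  · intro Q
    rw [ord_mul Q a1 (inv_ne_zero b1), ord_inv, a2 Q, b2 Q, hκ]
    ring

end Pool.Agent.VR
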