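import Pool.Agent.helper51.VR.SpecB

/-!
# Project vr (MP_24e2e7_nt): row FN2
-/

set_option autoImplicit false

namespace Pool.Agent.VR

open Pool.Agent.RB NumberField IsDedekindDomain Module
open scoped nonZeroDivisors Real Classical IsMulCommutative

theorem FN2 (hFN1 : FN1_stmt) (hFCT : FCT_stmt) : FN2_stmt := by
  intro F H _ _ _ _ _ _ _ r₁ D₁ hr
  obtain ⟨hcc, hc1, -⟩ := hFCT F H r₁ D₁
  obtain ⟨-, -, -, -, -, hact, hrefl, htrans, hunder⟩ := ORD H
  have hTHf : {P : HOS H | P.under (𝓞 F) ∈ D₁.T}.Finite := by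
    have h1 : {P : HOS H | P.under (𝓞 F) ∈ D₁.T} = ⋃ v ∈ (D₁.T : Set (HOS F)), {P : HOS H | P.under (𝓞 F) = v} := by
      ext P
      simp
    rw [h1]
    exact D₁.T.finite_toSet.biUnion (fun v _ => CP2_fin F H v)
  obtain ⟨R, hRW, hR⟩ := hFN1 H {P : HOS H | P.under (𝓞 F) ∈ D₁.T} hTHf
    {P : HOS H | P.under (𝓞 F) ∉ D₁.S ∧ P.under (𝓞 F) ∉ D₁.T ∧
      {Q : HOS H | Q.under (𝓞 F) = P.under (𝓞 F)}.ncard = finrank F H} (fun P hP hP' => hP.2.1 hP')
  have hA0 : ∃ A : Finset (HOS F), A.Nonempty ∧ (∀ P ∈ R, P.under (𝓞 F) ∈ A) ∧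
      ∀ v ∈ A, v ∉ D₁.S ∧ v ∉ D₁.T ∧ {Q : HOS H | Q.under (𝓞 F) = v}.ncard = finrank F H ∧
        ∃ w : HOS H, w.under (𝓞 F) = v := by
    refine ⟨insert (D₁.v ⟨0, by omega⟩) (R.image (fun P => P.under (𝓞 F))), ⟨_, Finset.mem_insert_self _ _⟩,
      fun P hP => Finset.mem_insert_of_mem (Finset.mem_image_of_mem _ hP), ?_⟩
    intro v hv
    rcases Finset.mem_insert.1 hv with h | h
    · subst h
      exact ⟨D₁.hvS _, D₁.hvT _, D₁.hvs _, D₁.w _, D₁.hw _⟩
    · obtain ⟨P, hP, rfl⟩ := Finset.mem_image.1 h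
      obtain ⟨a1, a2, a3⟩ := hRW P hP
      exact ⟨a1, a2, a3, P, rfl⟩
  obtain ⟨A, hAne, hRA, hA⟩ := hA0
  have hvA : ∀ j : Fin A.card, ((A.equivFin.symm j : A) : HOS F) ∈ A := fun j => (A.equivFin.symm j).2
  choose w hw using (fun j : Fin A.card => (hA _ (hvA j)).2.2.2)
  let D₀ : RData F H A.card :=
    { c := D₁.c
      hc := D₁.hc
      S := D₁.S
      T := D₁.T
      hST := D₁.hST
      hram := D₁.hram
      htor := D₁.htor
      v := fun j => ((A.equivFin.symm j : A) : HOS F)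
      hv := fun a b h => A.equivFin.symm.injective (Subtype.ext h)
      hvS := fun j => (hA _ (hvA j)).1
      hvT := fun j => (hA _ (hvA j)).2.1
      hvs := fun j => (hA _ (hvA j)).2.2.1
      w := w
      hw := hw }
  have hrange : ∀ v, v ∈ Set.range D₀.v ↔ v ∈ A := by
    intro v
    constructor
    · rintro ⟨j, rfl⟩
      exact hvA j
    · intro h
      refine ⟨A.equivFin ⟨v, h⟩, ?_⟩
      show ((A.equivFin.symm (A.equivFin ⟨v, h⟩) : A) : HOS F) = v
      rw [Equiv.symm_apply_apply]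
  refine ⟨A.card, D₀, Finset.card_pos.2 hAne, rfl, rfl, ?_⟩
  intro r D hS hT i hi
  have hc : D.c = D₁.c := RData_c_eq D D₁
  have hccD : ∀ x : H, D.c (D.c x) = x := by
    intro x
    rw [hc]
    have h := congrArg (fun σ : H ≃ₐ[F] H => σ x) hcc
    simpa using h
  have hactc : ∀ Q : HOS H, act (D.c : H ≃+* H) (act (D.c : H ≃+* H) Q) = Q := by
    intro Q
    rw [← htrans]
    have h : (D.c : H ≃+* H).trans (D.c : H ≃+* H) = RingEquiv.refl H := by
      ext x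
      exact hccD x
    rw [h, hrefl]
  have hund : ∀ Q : HOS H, (act (D.c : H ≃+* H) Q).under (𝓞 F) = Q.under (𝓞 F) :=
    fun Q => hunder F (D.c : H ≃+* H) Q (fun x => D.c.commutes x)
  have hPW : D.w i ∈ {P : HOS H | P.under (𝓞 F) ∉ D₁.S ∧ P.under (𝓞 F) ∉ D₁.T ∧
      {Q : HOS H | Q.under (𝓞 F) = P.under (𝓞 F)}.ncard = finrank F H} := by
    show (D.w i).under (𝓞 F) ∉ D₁.S ∧ (D.w i).under (𝓞 F) ∉ D₁.T ∧
      {Q : HOS H | Q.under (𝓞 F) = (D.w i).under (𝓞 F)}.ncard = finrank F H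
    rw [D.hw i, ← hS, ← hT]
    exact ⟨D.hvS i, D.hvT i, D.hvs i⟩
  obtain ⟨P', hP'R, y, hy0, hy1, hy2⟩ := hR (D.w i) hPW
  have hcy0 : D.c y ≠ 0 := by
    intro h
    apply hy0
    rw [← hccD y, h, map_zero]
  let u : Hˣ := Units.mk0 y hy0
  let u' : Hˣ := Units.mk0 (D.c y) hcy0
  have hu : u ∈ Ut F H (D.T : Set (HOS F)) Set.univ := by
    refine ⟨fun P hP => hy1 P ?_, fun P hP => absurd (Set.mem_univ _) hP⟩
    show P.under (𝓞 F) ∈ D₁.T
    rw [← hT]
    exact hP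
  have hu' : u' ∈ Ut F H (D.T : Set (HOS F)) Set.univ := by
    refine ⟨fun P hP => ?_, fun P hP => absurd (Set.mem_univ _) hP⟩
    have h1 : ((u' : Hˣ) : H) - 1 = (D.c : H ≃+* H) (y - 1) := by
      show D.c y - 1 = D.c (y - 1)
      rw [map_sub, map_one]
    rw [h1, ← hactc P, (hact (D.c : H ≃+* H) (act (D.c : H ≃+* H) P) (y - 1)).1]
    refine hu.1 _ ?_
    rw [hund]
    exact hP
  have hx : u * u'⁻¹ ∈ Ut F H (D.T : Set (HOS F)) Set.univ := Subgroup.mul_mem _ hu (Subgroup.inv_mem _ hu')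
  have hxval : ((u * u'⁻¹ : Hˣ) : H) = y * (D.c y)⁻¹ := by
    rw [Units.val_mul, Units.val_inv_eq_inv_val]
    rfl
  refine ⟨1, u * u'⁻¹, odd_one, ?_, ?_, ?_⟩
  · rw [hxval, map_mul, map_inv₀, hccD]
    field_simp
  · intro Q hQ
    exact hx.1 Q hQ
  · intro Q hQ
    have hQA : Q.under (𝓞 F) ∉ A := fun h => hQ ((hrange _).2 h)
    have hQP' : Q ≠ P' := fun h => hQA (h ▸ hRA P' hP'R)
    have hcQP' : act (D.c : H ≃+* H) Q ≠ P' := by
      intro h
      apply hQA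
      rw [← hund Q, h]
      exact hRA P' hP'R
    have e1 : ord Q (D.c y) = ord (act (D.c : H ≃+* H) Q) y := by
      have h := (hact (D.c : H ≃+* H) (act (D.c : H ≃+* H) Q) y).2
      rw [hactc Q] at h
      exact h
    rw [hxval, ord_mul Q hy0 (inv_ne_zero hcy0), ord_inv, e1, hy2 Q, hy2 (act (D.c : H ≃+* H) Q), if_neg hQP', if_neg hcQP']
    have e2 : (act (D.c : H ≃+* H) Q = D.w i) ↔ (Q = act (D.c : H ≃+* H) (D.w i)) := by
      constructor
      · intro h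
        rw [← h, hactc]
      · intro h
        rw [h, hactc]
    have e3 : act (D.c : H ≃+* H) (D.w i) ≠ D.w i := by
      intro h
      obtain ⟨-, -, hst, -⟩ := hFCT F H r D
      have h2 := (hst i i D.c h).2
      rw [hc] at h2
      exact hc1 h2
    by_cases h1 : Q = D.w i
    · have h2 : ¬ (act (D.c : H ≃+* H) Q = D.w i) := by
        rw [h1]
        exact e3
      rw [if_pos h1, if_pos h1, if_neg h2]
      norm_num
    · rw [if_neg h1, if_neg h1]
      by_cases h2 : Q = act (D.c : H ≃+* H) (D.w i)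
      · rw [if_pos (e2.2 h2), if_pos h2]
        norm_num
      · rw [if_neg (fun h => h2 (e2.1 h)), if_neg h2]
        norm_num

end Pool.Agent.VR
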