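import Pool.Agent.helper71.VR.DTX
import Pool.Agent.helper10.VR.DTA
import Pool.Agent.helper52.VR.LAM
import Pool.Agent.helper90.VR.EXA
import Pool.Agent.helper2.VR.PWR
import Pool.Agent.helper29.VR.FCT
import Pool.Agent.helper50.VR.IDN
import Pool.Agent.helper64.VR.DSY
import Pool.Agent.helper18.VR.EXT
import Pool.Agent.helper83.VR.MDL
import Pool.Agent.helper85.VR.EXL
import Pool.Agent.helper74.VR.TR1
import Pool.Agent.helper32.VR.TR2
import Pool.Agent.helper89.VR.REL
import Pool.Agent.helper49.VR.ADD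
import Pool.Agent.helper3.VR.REM
import Pool.Agent.helper93.VR.SUB
import Pool.Agent.helper51.VR.ENL
import Pool.Agent.helper17.VR.DGS
import Pool.Agent.helper87.VR.DGR
import Pool.Agent.helper92.VR.CDV
import Pool.Agent.helper98.VR.RNK
import Pool.Agent.helper51.VR.FN1
import Pool.Agent.helper51.VR.FN2

/-!
# Project vr (MP_24e2e7_nt): assembly

All rows of the project are put together. `fin_a`: one generating set of primes decides Rubin's integrality at 2 for all others. `fin_b`: if the homomorphisms `U → ℤ[G]` are generated, at 2 and on the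
minus part, by `N` elements and the maps `ord_i`, then the subsets of `V` with at most `N` elements decide. `fin_c`: this holds if the 2-part of the minus class group is generated by `N` elements.
-/

set_option autoImplicit false

namespace Pool.Agent.VR

open Pool.Agent.RB NumberField IsDedekindDomain Module
open scoped nonZeroDivisors Real Classical IsMulCommutative

theorem v_idn : IDN_stmt := IDN PWR FCT
theorem v_ext : EXT_stmt := EXT EXA PWR FCT
theorem v_dsy : DSY_stmt := DSY FCT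
theorem v_tr1 : TR1_stmt := TR1 (MDL PWR) (EXL PWR) PWR FCT
theorem v_tr2 : TR2_stmt := TR2 v_dsy PWR FCT
theorem v_rel : REL_stmt := REL PWR FCT
theorem v_add : ADD_stmt := ADD DTA v_idn PWR FCT
theorem v_rem : REM_stmt := REM v_ext v_dsy PWR FCT
theorem v_sub : SUB_stmt := SUB v_rel v_rem
theorem v_enl : ENL_stmt := ENL v_add FCT
theorem v_dgs : DGS_stmt := DGS DTX v_idn PWR FCT
theorem v_dgr : DGR_stmt := DGR v_ext PWR FCT
theorem v_rnk : RNK_stmt := RNK LAM v_dsy v_idn PWR FCT (CDV FCT)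
theorem v_fn2 : FN2_stmt := FN2 FN1 FCT

/-- the criterion gives the integrality, for all models of the rational group of units -/
theorem v_back (F H : Type) [Field F] [NumberField F] [Field H] [NumberField H] [Algebra F H] [IsAbelianGalois F H] [IsCMField H]
    (r : ℕ) (hr : 1 ≤ r) (D : RData F H r) (W N : Type) [AddCommGroup W] [Module (QGr F H) W] [AddCommGroup N] [Module (QGr F H) N]
    (ι : UU D → W) (j : N →ₗ[QGr F H] W) (hι : IsQU D ι) (hj : IsMinus D.c j) (u : EP (QGr F H) N r)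
    (o : Fin r → W →ₗ[QGr F H] QGr F H) (ho : ∀ (i : Fin r) (x : UU D), o i (ι x) = toQ (ordZ F (D.w i) ((x : Hˣ) : H))) :
    sg D.c * detm o j u = - detm o j u ∧ (Rub D (detm o j u) → ∃ d : ℕ, Odd d ∧ nsm d u ∈ RubinL D ι j) := by
  let mW : Module (MonoidAlgebra ℚ (H ≃ₐ[F] H)) W := (inferInstance : Module (QGr F H) W)
  let mN : Module (MonoidAlgebra ℚ (H ≃ₐ[F] H)) N := (inferInstance : Module (QGr F H) N)
  let ι' : Additive (Ut F H (D.T : Set (HOS F)) (Set.range D.v)) →+ W :=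
    AddMonoidHom.mk' (fun x => ι (Additive.toMul x)) (fun x y => hι.mul _ _)
  have hι' : isQU (F := F) (Ut F H (D.T : Set (HOS F)) (Set.range D.v)) ι' :=
    ⟨fun σ x y h => hι.equiv σ x y h, fun w => hι.denom w, fun x h => hι.ker x h⟩
  let jN : N →ₗ[MonoidAlgebra ℚ (H ≃ₐ[F] H)] W := j
  let j' : N →ₗ[MonoidAlgebra ℚ (H ≃ₐ[F] H)] Wm D.c W :=
    LinearMap.codRestrict (Wm D.c W) jN (fun x => (hj.2 (j x)).1 ⟨x, rfl⟩)
  have key : ∀ (f : Fin r → W →ₗ[MonoidAlgebra ℚ (H ≃ₐ[F] H)] MonoidAlgebra ℚ (H ≃ₐ[F] H)) (x : ⋀[MonoidAlgebra ℚ (H ≃ₐ[F] H)]^r N),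
      DT (fun i => (f i).comp (Wm D.c W).subtype) (exteriorPower.map r j' x) = DT (fun i => (f i).comp jN) x := by
    intro f x
    rw [fin_DT_map]
    rfl
  let o' : Fin r → W →ₗ[MonoidAlgebra ℚ (H ≃ₐ[F] H)] MonoidAlgebra ℚ (H ≃ₐ[F] H) := o
  let u' : ⋀[MonoidAlgebra ℚ (H ≃ₐ[F] H)]^r N := u
  have hdet : detm o j u = DT (fun i => (o' i).comp (Wm D.c W).subtype) (exteriorPower.map r j' u') := (key o' u').symm
  refine ⟨?_, fun hR => ?_⟩
  · rw [hdet]
    exact ANT (H ≃ₐ[F] H) D.c W r hr o' (exteriorPower.map r j' u')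
  · rw [hdet] at hR
    obtain ⟨d, hd, h⟩ := v_tr2 F H r hr D W ι' hι' o' (fun i x => ho i x) (exteriorPower.map r j' u') hR
    refine ⟨d, hd, ?_⟩
    intro f hf
    let f' : Fin r → W →ₗ[MonoidAlgebra ℚ (H ≃ₐ[F] H)] MonoidAlgebra ℚ (H ≃ₐ[F] H) := f
    obtain ⟨y, hy⟩ := h f' (fun i x => hf i x)
    rw [← map_nsmul (exteriorPower.map r j')] at hy
    exact ⟨y, (key f' (d • u')).symm.trans hy⟩

theorem v_stick {F H : Type} [Field F] [NumberField F] [Field H] [NumberField H] [Algebra F H] [IsAbelianGalois F H] [IsCMField H]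
    {r s : ℕ} (D : RData F H r) (E : RData F H s) (hS : E.S = D.S) (hT : E.T = D.T) (Θ : QGr F H)
    (h : IsStickelberger D Θ) : IsStickelberger E Θ := by
  obtain ⟨Lf, hL, hΘ⟩ := h
  refine ⟨Lf, hL, fun χ => ?_⟩
  rw [hS, hT]
  exact hΘ χ

theorem v_rub {F H : Type} [Field F] [NumberField F] [Field H] [NumberField H] [Algebra F H] [IsAbelianGalois F H] [IsCMField H]
    {r s : ℕ} (D : RData F H r) (E : RData F H s) (hS : E.S = D.S) (hT : E.T = D.T) (Θ : QGr F H)
    (h : IsStickelberger D Θ) (hc : sg D.c * Θ = -Θ) (hE : RubinAtTwo E) : Rub E Θ := by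
  have hc' : sg E.c * Θ = -Θ := by
    rw [RData_c_eq E D]
    exact hc
  exact v_tr1 F H s E hE Θ (v_stick D E hS hT Θ h) hc'

theorem fin_a (F H : Type) [Field F] [NumberField F] [Field H] [NumberField H] [Algebra F H] [IsAbelianGalois F H] [IsCMField H]
    (r₀ r : ℕ) (D₀ : RData F H r₀) (D : RData F H r) (hr : 1 ≤ r) (hS : D₀.S = D.S) (hT : D₀.T = D.T)
    (hgen : Generates D₀ D) (h0 : RubinAtTwo D₀) : RubinAtTwo D := by
  intro W N _ _ _ _ ι j hι hj u hu
  obtain ⟨o, ho, hΘ⟩ := hu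
  obtain ⟨h1, h2⟩ := v_back F H r hr D W N ι j hι hj u o ho
  have hR0 : Rub D₀ (detm o j u) := v_rub D D₀ hS hT _ hΘ h1 h0
  obtain ⟨s, E, hES, hET, hEv, hE⟩ := v_enl F H r₀ r D₀ D hS hT hgen _ h1 hR0
  exact h2 (v_sub F H r s D E hES hET hEv _ h1 hE)

theorem v_dgi (F H : Type) [Field F] [NumberField F] [Field H] [NumberField H] [Algebra F H] [IsAbelianGalois F H] [IsCMField H]
    (N : ℕ) (Θ : QGr F H) : ∀ (r : ℕ) (D : RData F H r), DualGen D N → sg D.c * Θ = -Θ →
    (∀ s : ℕ, s = min N r → ∀ D' : RData F H s, D'.S = D.S → D'.T = D.T → Set.range D'.v ⊆ Set.range D.v → Rub D' Θ) → Rub D Θ := by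
  intro r
  induction r with
  | zero =>
    intro D _ _ h
    exact h 0 (by simp) D rfl rfl subset_rfl
  | succ r ih =>
    intro D hD hc h
    by_cases hN : r + 1 ≤ N
    · exact h (r + 1) (min_eq_right hN).symm D rfl rfl subset_rfl
    · have hN' : N ≤ r := by omega
      refine v_dgs F H r N D hN' hD Θ hc ?_
      intro D' hS hT hv
      refine ih D' (v_dgr F H (r + 1) r N D D' hS hT hv hD) ?_ ?_
      · rw [RData_c_eq D' D]
        exact hc
      · intro s hs D'' hS' hT' hv'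
        refine h s ?_ D'' (hS'.trans hS) (hT'.trans hT) (hv'.trans hv)
        rw [hs, min_eq_left hN', min_eq_left (hN'.trans (Nat.le_succ r))]

theorem fin_b (F H : Type) [Field F] [NumberField F] [Field H] [NumberField H] [Algebra F H] [IsAbelianGalois F H] [IsCMField H]
    (r N : ℕ) (D : RData F H r) (hr : 1 ≤ r) (hD : DualGen D N)
    (h : ∀ D' : RData F H (min N r), D'.S = D.S → D'.T = D.T → Set.range D'.v ⊆ Set.range D.v → RubinAtTwo D') : RubinAtTwo D := by
  intro W M _ _ _ _ ι j hι hj u hu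
  obtain ⟨o, ho, hΘ⟩ := hu
  obtain ⟨h1, h2⟩ := v_back F H r hr D W M ι j hι hj u o ho
  refine h2 (v_dgi F H N _ r D hD h1 ?_)
  intro s hs D' hS hT hv
  subst hs
  exact v_rub D D' hS hT _ hΘ h1 (h D' hS hT hv)

theorem fin_c (F H : Type) [Field F] [NumberField F] [Field H] [NumberField H] [Algebra F H] [IsAbelianGalois F H] [IsCMField H]
    (r N : ℕ) (D : RData F H r) (h : MinusRank D N) : DualGen D N := v_rnk F H r N D h

theorem fin_0 (F H : Type) [Field F] [NumberField F] [Field H] [NumberField H] [Algebra F H] [IsAbelianGalois F H] [IsCMField H]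
    (r₁ : ℕ) (D₁ : RData F H r₁) (hr : 1 ≤ r₁) : ∃ (r₀ : ℕ) (D₀ : RData F H r₀), 1 ≤ r₀ ∧ D₀.S = D₁.S ∧ D₀.T = D₁.T ∧
      (∀ (r : ℕ) (D : RData F H r), D.S = D₁.S → D.T = D₁.T → Generates D₀ D) ∧
      (RubinAtTwo D₀ ↔ ∀ (r : ℕ) (D : RData F H r), 1 ≤ r → D.S = D₁.S → D.T = D₁.T → RubinAtTwo D) := by
  obtain ⟨r₀, D₀, h1, h2, h3, h4⟩ := v_fn2 F H r₁ D₁ hr
  refine ⟨r₀, D₀, h1, h2, h3, h4, fun h r D hr hS hT => ?_, fun h => h r₀ D₀ h1 h2 h3⟩
  exact fin_a F H r₀ r D₀ D hr (h2.trans hS.symm) (h3.trans hT.symm) (h4 r D hS hT) h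

end Pool.Agent.VR
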