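import Pool.Agent.helper91.RB.Fin2

/-!
# Project vr (MP_24e2e7_nt): one set `V` decides Rubin's integrality at 2

The data `RData`, the group `UU D`, Rubin's lattice `RubinL` and the Rubin-Brumer-Stark element `IsRBS` are those of `Pool/Agent/helper91/RB/Fin.lean` and `Spec5.lean`.
`RubinAtTwo D` says `u_RBS ∈ 𝓛 ⊗ ℤ_(2)`. `Generates D₀ D`: the primes above the set `V₀` of `D₀` generate at 2 the classes of the primes above `V` in the minus part of the ray class group.
`DualGen D N`: the homomorphisms `U → ℤ[G]` are generated, at 2 and on the minus part, by `N` of them and the maps `ord_j`. `MinusRank D N`: the 2-part of the finite group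
`(anti-invariant divisors above V) / div (U^-)` is generated by `N` elements.
-/

set_option autoImplicit false
set_option linter.unusedSectionVars false

namespace Pool.Agent.VR

open Pool.Agent.RB NumberField IsDedekindDomain Module
open scoped nonZeroDivisors Real Classical IsMulCommutative

section defs

variable {F H : Type} [Field F] [NumberField F] [Field H] [NumberField H] [Algebra F H] [IsAbelianGalois F H]

/-- Rubin's integrality at 2 for the data `D`: an odd multiple of the Rubin-Brumer-Stark element is in Rubin's lattice, that is `u_RBS ∈ 𝓛 ⊗ ℤ_(2)`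
(for all models `ι : U → W` of `U → ℚU` and `j : N → W` of the inclusion of the minus part) -/
def RubinAtTwo [IsCMField H] {r : ℕ} (D : RData F H r) : Prop :=
  ∀ (W N : Type) [AddCommGroup W] [Module (QGr F H) W] [AddCommGroup N] [Module (QGr F H) N] (ι : UU D → W)
    (j : N →ₗ[QGr F H] W), IsQU D ι → IsMinus D.c j → ∀ u : EP (QGr F H) N r, IsRBS D ι j u →
    ∃ d : ℕ, Odd d ∧ nsm d u ∈ RubinL D ι j

/-- The primes above the set `V₀` of `D₀` generate at 2 the classes of `w_i - c w_i` for the primes `v_i` of `D` outside `V₀`: there are an odd `d` and `x ∈ Hˣ` with `x c(x) = 1`, `x ≡ 1` modulo all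
primes above `T`, and `div x = d (w_i - c w_i) + (a divisor supported above V₀)` -/
def Generates [IsCMField H] {r₀ r : ℕ} (D₀ : RData F H r₀) (D : RData F H r) : Prop :=
  ∀ i : Fin r, D.v i ∉ Set.range D₀.v → ∃ (d : ℕ) (x : Hˣ), Odd d ∧ (x : H) * D.c (x : H) = 1 ∧
    (∀ Q : HOS H, Q.under (𝓞 F) ∈ D.T → Q.valuation H ((x : H) - 1) < 1) ∧
    ∀ Q : HOS H, Q.under (𝓞 F) ∉ Set.range D₀.v →
      ord Q (x : H) = if Q = D.w i then (d : ℤ) else if Q = act (D.c : H ≃+* H) (D.w i) then -(d : ℤ) else 0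

/-- `φ` is a homomorphism of `ℤ[G]`-modules on the subgroup `U` of `Hˣ` (its values outside of `U` are irrelevant) -/
structure IsGH (U : Subgroup Hˣ) (φ : Hˣ → MonoidAlgebra ℤ (H ≃ₐ[F] H)) : Prop where
  mul : ∀ x ∈ U, ∀ y ∈ U, φ (x * y) = φ x + φ y
  equiv : ∀ σ : H ≃ₐ[F] H, ∀ x ∈ U, ∀ y ∈ U, (y : H) = σ (x : H) → φ y = MonoidAlgebra.single σ 1 * φ x

/-- `Hom(U, ℤ[G])` is generated, at 2 and on the minus part `{x : x c(x) = 1}` of `U`, by `N` elements and the maps `ord_i` -/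
def DualGen [IsCMField H] {r : ℕ} (D : RData F H r) (N : ℕ) : Prop :=
  ∃ g : Fin N → Hˣ → MonoidAlgebra ℤ (H ≃ₐ[F] H), (∀ k, IsGH (UU D) (g k)) ∧
    ∀ φ : Hˣ → MonoidAlgebra ℤ (H ≃ₐ[F] H), IsGH (UU D) φ →
    ∃ (d : ℕ) (a : Fin N → MonoidAlgebra ℤ (H ≃ₐ[F] H)) (b : Fin r → MonoidAlgebra ℤ (H ≃ₐ[F] H)), Odd d ∧
      ∀ x ∈ UU D, (x : H) * D.c (x : H) = 1 → d • φ x = ∑ k, a k * g k x + ∑ i, b i * ordZ F (D.w i) (x : H)

/-- The 2-part of the group `B = DV / dM` is generated by `N` elements, where `DV` is the group of the divisors `E` of `H`, supported above `V`, with `c E = - E`, and `dM` the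
subgroup of the divisors of the `x ∈ Hˣ` with `x c(x) = 1`, `x ≡ 1` modulo all primes above `T` -/
def MinusRank [IsCMField H] {r : ℕ} (D : RData F H r) (N : ℕ) : Prop :=
  ∃ g : Fin N → Dv H, (∀ k, g k ∈ DV (D.c : H ≃+* H) {P : HOS H | P.under (𝓞 F) ∈ Set.range D.v}) ∧
    ∀ E ∈ DV (D.c : H ≃+* H) {P : HOS H | P.under (𝓞 F) ∈ Set.range D.v}, ∃ (d : ℕ) (a : Fin N → ℤ), Odd d ∧
      d • E - ∑ k, a k • g k ∈
        dM (D.c : H ≃+* H) {P : HOS H | P.under (𝓞 F) ∈ Set.range D.v} {P : HOS H | P.under (𝓞 F) ∈ D.T}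

/-- a dual system of modulus `n`: elements `u_1, ..., u_r` of `U` with `u_i c(u_i) = 1` and `ord_i (u_j) = n (1 - c)` for `i = j`, 0 otherwise -/
def DS [IsCMField H] {r : ℕ} (D : RData F H r) (n : ℕ) (u : Fin r → Hˣ) : Prop :=
  n ≠ 0 ∧ (∀ i, u i ∈ UU D ∧ (u i : H) * D.c (u i : H) = 1) ∧
    ∀ i j, ordZ F (D.w i) (u j : H) = if i = j then n • (1 - MonoidAlgebra.single D.c 1) else 0

/-- the criterion for Rubin's integrality at 2 in terms of the Stickelberger element `Θ`: `Θ det (φ_i(u_j)) ∈ (2n)^r ℤ_(2)[G]` for all dual systems `u` and all `φ_i` -/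
def Rub [IsCMField H] {r : ℕ} (D : RData F H r) (Θ : QGr F H) : Prop :=
  ∀ (n : ℕ) (u : Fin r → Hˣ), DS D n u → ∀ φ : Fin r → Hˣ → MonoidAlgebra ℤ (H ≃ₐ[F] H), (∀ i, IsGH (UU D) (φ i)) →
    ∃ (d : ℕ) (y : MonoidAlgebra ℤ (H ≃ₐ[F] H)), Odd d ∧
      (d : QGr F H) * (Θ * toQ (Matrix.det (fun i j => φ i (u j)))) = ((2 * n) ^ r : ℕ) * toQ y

/-- `x^a` for `a ∈ ℤ[G]` and `x ∈ Hˣ` -/
noncomputable def pw (a : MonoidAlgebra ℤ (H ≃ₐ[F] H)) (x : Hˣ) : Hˣ :=
  ∏ σ : H ≃ₐ[F] H, (Units.map ((σ : H →+* H) : H →* H) x) ^ (a.coeff σ)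

/-- the element of `ℤ[G]` with coefficient `E(τ w)` at `τ`, for a divisor `E` of `H` -/
noncomputable def cD (w : HOS H) (E : Dv H) : MonoidAlgebra ℤ (H ≃ₐ[F] H) :=
  ∑ τ : H ≃ₐ[F] H, MonoidAlgebra.single τ (E (act (τ : H ≃+* H) w))

theorem RData_c_eq [IsCMField H] {r s : ℕ} (D : RData F H r) (E : RData F H s) : D.c = E.c := by
  ext x
  rw [D.hc, E.hc]

/-- add a prime `v` (with a prime `w` above it) to the data, as the first one -/
def addP [IsCMField H] {r : ℕ} (D : RData F H r) (v : HOS F) (w : HOS H) (h1 : v ∉ Set.range D.v) (h2 : v ∉ D.S) (h3 : v ∉ D.T)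
    (h4 : {P : HOS H | P.under (𝓞 F) = v}.ncard = finrank F H) (h5 : w.under (𝓞 F) = v) : RData F H (r + 1) where
  c := D.c
  hc := D.hc
  S := D.S
  T := D.T
  hST := D.hST
  hram := D.hram
  htor := D.htor
  v := Fin.cons v D.v
  hv := (Fin.cons_injective_iff.2 ⟨h1, D.hv⟩)
  hvS := fun j => Fin.cases h2 D.hvS j
  hvT := fun j => Fin.cases h3 D.hvT j
  hvs := fun j => Fin.cases h4 D.hvs j
  w := Fin.cons w D.w
  hw := fun j => Fin.cases h5 D.hw j

/-- the data with the primes `v_{e(1)}, ..., v_{e(s)}` only, for an injective map `e` -/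
def sub [IsCMField H] {r s : ℕ} (D : RData F H r) (e : Fin s → Fin r) (he : Function.Injective e) : RData F H s where
  c := D.c
  hc := D.hc
  S := D.S
  T := D.T
  hST := D.hST
  hram := D.hram
  htor := D.htor
  v := D.v ∘ e
  hv := D.hv.comp he
  hvS := fun j => D.hvS (e j)
  hvT := fun j => D.hvT (e j)
  hvs := fun j => D.hvs (e j)
  w := D.w ∘ e
  hw := fun j => D.hw (e j)

end defs

/-- the row ORZ of the rb project, with its hypotheses discharged -/
theorem vr_orz : ORZ_stmt := ORZ ORD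

/-- the row INJ of the rb project, with its hypotheses discharged -/
theorem vr_inj : INJ_stmt := INJ ORD fin_spl (ORZ ORD)

end Pool.Agent.VR
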