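import Pool.Agent.helper51.VR.Defs

/-!
# Project vr (MP_24e2e7_nt): one set `V` decides Rubin's integrality at 2. The rows

RULES. Row `vr:XXX` is a file `Pool/Agent/<seat>/VR/XXX.lean`, namespace `Pool.Agent.VR`, which imports this file and contains the theorem whose EXACT line is in the lock note. Hypotheses of a row: only the
rows named after `from` in its docstring. The rows of the rb project are PROVED theorems (imported), use them directly: `ORD : ORD_stmt`, `vr_orz : ORZ_stmt`, `fin_spl : SPL_stmt`, `vr_inj : INJ_stmt`,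
`fin_dcl : DCL_stmt`, `RAT : RAT_stmt`, `UNI : UNI_stmt`, `ANT : ANT_stmt` (statements in `Pool/Agent/helper91/RB/Spec3.lean`, `Spec4.lean`, `Spec5.lean`). Auxiliary lemmas have the prefix `XXX_`. No `convert`, `congr!`,
`native_decide`, no double quotes. The docstring contains a complete proof. `G = H ≃ₐ[F] H` is commutative (`open scoped IsMulCommutative`), `ℤ[G]` and `ℚ[G] = QGr F H` are commutative rings, torsion free as
abelian groups. `toQ : ℤ[G] → QGr F H` is the inclusion (a ring homomorphism: `MonoidAlgebra.mapRingHom`), `sg σ : QGr F H` is the group element `σ`. The elements with `c y = - y` satisfy `(1 - c) y = 2 y`.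
-/

set_option autoImplicit false

namespace Pool.Agent.VR

open Pool.Agent.RB NumberField IsDedekindDomain Module
open scoped nonZeroDivisors Real Classical IsMulCommutative

/-! ### Pure algebra -/

/-- **DTX** (medium). Pure algebra. The rows of `A` are `A_i = ∑_k a_ik g_k + ∑_l b_il (m e_l)`. `det` is multilinear in the rows (`Matrix.detRowAlternating`,
`MultilinearMap.map_sum`, `map_smul_univ`): `det A` is a sum, over the functions `s : Fin (r+1) → Fin N ⊕ Fin (r+1)`, of (a product of coefficients) times the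
determinant of the matrix with the rows `g_k` (for `s i = inl k`) and `m e_l` (for `s i = inr l`). As `N < r + 1`, if all `s i` are of the form `inl k` then two rows
are equal (pigeonhole) and the determinant is 0. Otherwise some `s i₀ = inr l`; expand along the row `i₀` (`Matrix.det_succ_row`): the only nonzero entry is `m` at the
place `j₀ = l`, and the minor is the determinant in the hypothesis with `ρ i = s (i₀.succAbove i)`. All terms are in the ideal -/
def DTX_stmt : Prop := ∀ (R : Type) [CommRing R] (r N : ℕ), N ≤ r → ∀ (m : R) (g : Fin N → Fin (r + 1) → R) (A : Matrix (Fin (r + 1)) (Fin (r + 1)) R) (a : Fin (r +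
  1) → Fin N → R) (b : Fin (r + 1) → Fin (r + 1) → R), (∀ i j, A i j = ∑ k, a i k * g k j + b i j * m) → ∀ I : Ideal R, (∀ (j₀ : Fin (r + 1)) (ρ : Fin r → Fin N ⊕
  Fin (r + 1)), m * Matrix.det (fun i j : Fin r => Sum.elim (fun k => g k (j₀.succAbove j)) (fun l => if l = j₀.succAbove j then m else 0) (ρ i)) ∈ I) → Matrix.det A
  ∈ I

/-- **DTA** (short). Pure algebra. `d det M` is the determinant of `M` with the column 0 multiplied by `d` (`Matrix.det_updateCol_smul` or `det_updateCol_smul_left`),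
that is replaced by `n x - ∑_j c_j M_{·,succ j}`; adding multiples of other columns does not change the determinant (linearity in the column and
`Matrix.det_zero_of_column_eq`), so `d det M = n det (M` with column 0 replaced by `x)`, and `Matrix.det_succ_column_zero` -/
def DTA_stmt : Prop := ∀ (R : Type) [CommRing R] (r : ℕ) (M : Matrix (Fin (r + 1)) (Fin (r + 1)) R) (d n : R) (x : Fin (r + 1) → R) (c : Fin r → R), (∀ i, d * M i 0
  = n * x i - ∑ j, c j * M i (Fin.succ j)) → ∀ I : Ideal R, (∀ i : Fin (r + 1), n * x i * Matrix.det (M.submatrix i.succAbove Fin.succ) ∈ I) → d * Matrix.det M ∈ I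

/-- **LAM** (short). Pure algebra. The image of `l` is a submodule of `ℤ^N`, free of rank at most `N` (`Submodule.basisOfPid`, `Submodule.nonempty_basis_of_pid`, or
`Module.finrank_le`), so it is generated by `N` elements (fill up with zeros); choose preimages -/
def LAM_stmt : Prop := ∀ (A : Type) [AddCommGroup A] (N : ℕ) (l : A →+ (Fin N → ℤ)), ∃ f : Fin N → A, ∀ x : A, ∃ a : Fin N → ℤ, l x = ∑ k, a k • l (f k)

/-- **EXA** (short). Pure algebra. The image of `ρ` is a subgroup of a free abelian group, hence free and projective (over the principal ideal domain `ℤ`;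
`Module.projective_lifting_property`, submodules of free modules are free), so `ρ : A → ρ(A)` has a section `s` (a homomorphism with `ρ (s t) = t`), `x - s (ρ x) ∈ ker
ρ = B`, and `g x = f (x - s (ρ x))` -/
def EXA_stmt : Prop := ∀ (A : Type) [AddCommGroup A] (κ : Type) [Finite κ] (ρ : A →+ (κ → ℤ)) (B : AddSubgroup A), (∀ x, x ∈ B ↔ ρ x = 0) → ∀ f : B →+ ℤ, ∃ g : A →+
  ℤ, ∀ x : B, g (x : A) = f x

/-! ### The groups `U` and their homomorphisms -/

/-- **PWR** (short to medium). Elementary. Stability of `Ut`: `y = σ x`, `(act σ P).valuation (σ x) = P.valuation x` (ORD) applied to `act σ⁻¹ P`, which has the same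
prime of `F` below (ORD, last clause, `k = F`). `pw a x = ∏_σ (σ x)^(a_σ)`: `φ` is additive on products, powers and inverses of elements of `U`, `φ(σ x) = σ φ(x)`, `a =
∑_σ a_σ σ` (`MonoidAlgebra` sums over the finite group; `Finsupp` induction or `ext` on coefficients). The same for `ordZ` (ORZ). Last clause: ORZ -/
def PWR_stmt : Prop := ∀ (F H : Type) [Field F] [NumberField F] [Field H] [NumberField H] [Algebra F H] [IsAbelianGalois F H] [IsCMField H] (T V : Set (HOS F)), (∀ σ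
  : H ≃ₐ[F] H, ∀ x ∈ Ut F H T V, ∀ y : Hˣ, (y : H) = σ (x : H) → y ∈ Ut F H T V) ∧ (∀ (a : MonoidAlgebra ℤ (H ≃ₐ[F] H)) (x : Hˣ), (x ∈ Ut F H T V → pw a x ∈ Ut F H T
  V) ∧ (∀ φ : Hˣ → MonoidAlgebra ℤ (H ≃ₐ[F] H), x ∈ Ut F H T V → IsGH (Ut F H T V) φ → φ (pw a x) = a * φ x) ∧ (∀ w : HOS H, ordZ F w (pw a x : H) = a * ordZ F w (x
  : H)) ∧ ∀ c : H ≃ₐ[F] H, (x : H) * c (x : H) = 1 → (pw a x : H) * c (pw a x : H) = 1) ∧ (∀ φ : Hˣ → MonoidAlgebra ℤ (H ≃ₐ[F] H), IsGH (Ut F H T V) φ → φ 1 = 0 ∧ (∀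
  x ∈ Ut F H T V, φ x⁻¹ = - φ x) ∧ ∀ x ∈ Ut F H T V, ∀ n : ℕ, φ (x ^ n) = n • φ x) ∧ ∀ w : HOS H, IsGH (Ut F H T V) (fun x => ordZ F w (x : H))

/-- **FCT** (short to medium). Elementary facts. `c² = 1`, `c ≠ 1`: `IsCMField.complexConj_apply_apply`, `IsCMField.complexConj_ne_one`. Clauses 3 and 4: SPL for `w = D.w
i` (`D.hvs`, `D.hw`), `act σ` does not change the prime of `F` below (ORD), `D.hv` injective. Clause 5: the definition of `Ut` and `ord P x = 0 ↔ P.valuation x = 1`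
(ORD). Clause 6: ORZ, last clause, and clause 4. Clause 7: `y = ∑_σ y_σ σ` with `y_{cσ} = - y_σ`: choose a set `A` of representatives of `G / {1, c}` and `z = ∑_{σ ∈ A}
y_σ σ` (or: `z_σ = y_σ` if `σ` is chosen, 0 otherwise; e.g. `Quotient.out`). Clause 8: compare coefficients with ORZ and `act (σ τ) = act σ ∘ act τ` (ORD), `G` is
commutative -/
def FCT_stmt : Prop := ∀ (F H : Type) [Field F] [NumberField F] [Field H] [NumberField H] [Algebra F H] [IsAbelianGalois F H] [IsCMField H] (r : ℕ) (D : RData F H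
  r), D.c * D.c = 1 ∧ D.c ≠ 1 ∧ (∀ (i j : Fin r) (σ : H ≃ₐ[F] H), act (σ : H ≃+* H) (D.w i) = D.w j → i = j ∧ σ = 1) ∧ (∀ (i : Fin r) (P : HOS H), P.under (𝓞 F) =
  D.v i ↔ ∃ σ : H ≃ₐ[F] H, act (σ : H ≃+* H) (D.w i) = P) ∧ (∀ x : Hˣ, x ∈ UU D ↔ (∀ P : HOS H, P.under (𝓞 F) ∈ D.T → P.valuation H ((x : H) - 1) < 1) ∧ ∀ P : HOS H,
  P.under (𝓞 F) ∉ Set.range D.v → ord P (x : H) = 0) ∧ (∀ (x : Hˣ) (i : Fin r), ordZ F (D.w i) (x : H) = 0 ↔ ∀ P : HOS H, P.under (𝓞 F) = D.v i → ord P (x : H) = 0)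
  ∧ (∀ y : MonoidAlgebra ℤ (H ≃ₐ[F] H), MonoidAlgebra.single D.c 1 * y = -y → ∃ z : MonoidAlgebra ℤ (H ≃ₐ[F] H), y = (1 - MonoidAlgebra.single D.c 1) * z) ∧ ∀ (w :
  HOS H) (τ : H ≃ₐ[F] H) (x : H), ordZ F (act (τ : H ≃+* H) w) x = MonoidAlgebra.single τ⁻¹ 1 * ordZ F w x

/-- **IDN** (short; from PWR, FCT). `x c(x) = 1` gives `c x = x⁻¹`, so `c φ(x) = - φ(x)` for all homomorphisms `φ` (PWR), also for the `ord_i`. Let `z = x^(2n) ∏_j pw
(-ord_j x) (u_j)`. `z ∈ U`, `z c(z) = 1` (PWR) and `ord_i z = 2n ord_i x - ∑_j ord_j(x) ord_i(u_j) = 2n ord_i x - ord_i(x) n (1 - c) = 0`, because `c ord_i(x) = -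
ord_i(x)`. So `z = 1` (`vr_inj`, first clause) and `0 = φ(z) = 2n φ(x) - ∑_j ord_j(x) φ(u_j)` -/
def IDN_stmt : Prop := ∀ (F H : Type) [Field F] [NumberField F] [Field H] [NumberField H] [Algebra F H] [IsAbelianGalois F H] [IsCMField H] (r : ℕ) (D : RData F H r)
  (n : ℕ) (u : Fin r → Hˣ), DS D n u → ∀ φ : Hˣ → MonoidAlgebra ℤ (H ≃ₐ[F] H), IsGH (UU D) φ → ∀ x ∈ UU D, (x : H) * D.c (x : H) = 1 → MonoidAlgebra.single D.c 1 * φ
  x = - φ x ∧ (2 * n) • φ x = ∑ j, ordZ F (D.w j) (x : H) * φ (u j)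

/-- **DSY** (medium; from FCT). Existence of a dual system. `h = classNumber H = (Pr H).index ≠ 0` (DCL), so `h` times the divisor `Finsupp.single (w_j) 1` is in `Pr H`
(`AddSubgroup.nsmul_index_mem`): there is `x_j ≠ 0` with `ord_P x_j = h` for `P = w_j`, 0 otherwise. Let `Q` be a prime above `T`. `x_j` is a unit at `Q` (`w_j` is not
above `T`, `D.hvT`), the residue field is finite, so `x_j^m ≡ 1` modulo `Q` for some `m ≥ 1`; there are finitely many such `Q`, so there is `k ≥ 1` with `x_j^k ≡ 1`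
modulo all `Q` above `T` and for all `j` (product of the `m`; if `x ≡ 1` then `x^m ≡ 1`). `u_j = x_j^k / c(x_j^k)`: `u_j c(u_j) = 1` (`c² = 1`), `≡ 1` modulo all `Q`
above `T` (`c` permutes them), a unit outside `V`. The coefficient of `ord_i(u_j)` at `τ` is `ord (act τ (w_i)) (u_j) = h k ([τ w_i = w_j] - [τ w_i = c w_j])` (ORZ;
`ord_P (c x) = ord_{c P} x` as `c = c⁻¹`), and by FCT this is `h k` for `i = j, τ = 1`, `- h k` for `i = j, τ = c`, 0 otherwise. `n = h k` -/
def DSY_stmt : Prop := ∀ (F H : Type) [Field F] [NumberField F] [Field H] [NumberField H] [Algebra F H] [IsAbelianGalois F H] [IsCMField H] (r : ℕ) (D : RData F H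
  r), ∃ (n : ℕ) (u : Fin r → Hˣ), DS D n u

/-- **EXT** (medium; from EXA, PWR, FCT). Extension of homomorphisms. `UU D ≤ UU D'`: FCT clause 5. Let `f(x)` be the coefficient of `φ(x)` at 1, additive on `UU D`. Let
`κ` be the set of pairs (an index `i` with `D'.v i` not in the range of `D.v`, an element `τ` of `G`), and `ρ(x)_(i,τ) = ord (act τ (D'.w i)) x`; the kernel of `ρ` on
`UU D'` is `UU D` (FCT clauses 4, 5). EXA (for `A = Additive (UU D')`) gives an additive extension `g : UU D' → ℤ` of `f`. Put `φ'(x) = ∑_σ g(σ⁻¹ x) σ` for `x ∈ UU D'`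
(and 0 outside): additive, `φ'(τ x) = ∑_σ g(σ⁻¹ τ x) σ = τ φ'(x)`, and for `x ∈ UU D` the coefficient of `φ(x)` at `σ` is that of `σ⁻¹ φ(x) = φ(σ⁻¹ x)` at 1, so `φ' =
φ` -/
def EXT_stmt : Prop := ∀ (F H : Type) [Field F] [NumberField F] [Field H] [NumberField H] [Algebra F H] [IsAbelianGalois F H] [IsCMField H] (r s : ℕ) (D : RData F H
  r) (D' : RData F H s), D'.T = D.T → Set.range D.v ⊆ Set.range D'.v → UU D ≤ UU D' ∧ ∀ φ : Hˣ → MonoidAlgebra ℤ (H ≃ₐ[F] H), IsGH (UU D) φ → ∃ φ' : Hˣ →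
  MonoidAlgebra ℤ (H ≃ₐ[F] H), IsGH (UU D') φ' ∧ ∀ x ∈ UU D, φ' x = φ x

/-! ### Models of `ℚU` -/

/-- **MDL** (medium; from PWR). Existence of a model. `L = Additive (UU D)` with the action of `G` (PWR clause 1: `σ` maps `UU D` to itself). `W = ℚ ⊗[ℤ] L` with the
action of `ℚ[G]`: e.g. `Representation.asModule` of the representation `σ ↦ LinearMap.baseChange ℚ (σ on L)` (or `Module.compHom` along `MonoidAlgebra.lift ℚ ℚ G` into
`Module.End ℚ W`; recall `QGr F H` is by definition `MonoidAlgebra ℚ (H ≃ₐ[F] H)` with its ring structure), `ι x = 1 ⊗ x`. `denom` and `ker`: `TensorProduct.mk ℤ ℚ L 1`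
is the localisation of `L` at the nonzero integers (`IsLocalizedModule`, `isLocalizedModule_iff_isBaseChange`: `IsLocalizedModule.surj`,
`IsLocalizedModule.eq_zero_iff`). `N` = the submodule `{w : c w = -w}` (as `Wm` in `RB/Spec4.lean`), `j` = the inclusion -/
def MDL_stmt : Prop := ∀ (F H : Type) [Field F] [NumberField F] [Field H] [NumberField H] [Algebra F H] [IsAbelianGalois F H] [IsCMField H] (r : ℕ) (D : RData F H
  r), ∃ (W N : Type) (_ : AddCommGroup W) (_ : Module (QGr F H) W) (_ : AddCommGroup N) (_ : Module (QGr F H) N) (ι : UU D → W) (j : N →ₗ[QGr F H] W), IsQU D ι ∧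
  IsMinus D.c j

/-- **EXL** (short to medium; from PWR). `ℚ[G]`-linear extension of `φ : U → ℤ[G]` to `W`. For `w ∈ W` choose `n ≠ 0` and `x` with `n w = ι x` and put `f w = n⁻¹ φ(x)`
(in `ℚ[G]`; multiplication by the rational number `n⁻¹`). Well defined: if `n w = ι x`, `m w = ι y` then `ι (x^m) = ι (y^n)`, so `x^m = y^n z` with `z` torsion
(`IsQU.ker`), `φ(z) = 0` (`ℤ[G]` is torsion free), `m φ(x) = n φ(y)`. Additive; commutes with integers, rationals (`q w`: clear denominators) and with `σ ∈ G`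
(`IsQU.equiv`), so it is `ℚ[G]`-linear (every element of `ℚ[G]` is a sum of `q σ`) -/
def EXL_stmt : Prop := ∀ (F H : Type) [Field F] [NumberField F] [Field H] [NumberField H] [Algebra F H] [IsAbelianGalois F H] [IsCMField H] (r : ℕ) (D : RData F H r)
  (W : Type) [AddCommGroup W] [Module (QGr F H) W] (ι : UU D → W), IsQU D ι → ∀ φ : Hˣ → MonoidAlgebra ℤ (H ≃ₐ[F] H), IsGH (UU D) φ → ∃ f : W →ₗ[QGr F H] QGr F H, ∀
  x : UU D, f (ι x) = toQ (φ (x : Hˣ))

/-- **TR1** (medium; from MDL, EXL, PWR, FCT). From the lattice to the criterion. Let `n, u` be a dual system and `φ_i` homomorphisms on `UU D`. Take a model (MDL), the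
`ℚ[G]`-linear extensions `o_i` of `ordZ F (D.w i)` (PWR last clause) and `f_i` of `φ_i` (EXL). `sg c • ι(u_k) = ι(c u_k) = ι(u_k⁻¹) = - ι(u_k)`, so `ι(u_k) = j(n_k)`.
Let `t = n_1 ∧ ... ∧ n_r` (`exteriorPower.ιMulti`), `detm o j t = det (o_i(ι u_k)) = (n (1 - c))^r` (a diagonal matrix; `detm f j (ιMulti x) = det (f_i (j x_k))` by
`exteriorPower.alternatingMapLinearEquiv_apply_ιMulti`, up to a transpose), and `u₀ = ((2n)^r)⁻¹ Θ • t`: `detm o j u₀ = ((2n)^r)⁻¹ Θ (n(1 - c))^r = Θ`, because `(1 - c)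
Θ = 2 Θ`. So `IsRBS D ι j u₀`, and `RubinAtTwo D` gives an odd `d` with `detm f j (nsm d u₀) ∈ toQ ℤ[G]`, that is `d ((2n)^r)⁻¹ Θ det (toQ φ_i(u_k)) = toQ y` -/
def TR1_stmt : Prop := ∀ (F H : Type) [Field F] [NumberField F] [Field H] [NumberField H] [Algebra F H] [IsAbelianGalois F H] [IsCMField H] (r : ℕ) (D : RData F H
  r), RubinAtTwo D → ∀ Θ : QGr F H, IsStickelberger D Θ → sg D.c * Θ = -Θ → Rub D Θ

/-- **TR2** (medium; from DSY, PWR, FCT). From the criterion to the lattice (in the form of RUB of `RB/Spec5.lean`, with `Wm D.c W`, `RL`). Let `f_i` be as in `RL`,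
choose `φ_i(x) ∈ ℤ[G]` with `f_i(ι x) = zq (φ_i x)` for `x ∈ UU D` (0 outside); `zq` is injective, so `φ_i` is `IsGH (UU D)`. Take a dual system (DSY); `c ι(u_k) = ι(c
u_k) = ι(u_k⁻¹) = - ι(u_k)`, so `x_k = ι(u_k) ∈ Wm D.c W`. RAT for `R = ℚ[G]`, `N = Wm D.c W`, the restrictions of `o_i`, `f_i`, the `x_k` and `e = n (1 - c)`; the
injectivity hypothesis is as in CHF of `RB/Spec5.lean` (`w ∈ Wm` with all `o_i w = 0`: `m w = ι(x)`, `ι(x c(x)) = 0`, so `x c(x)` is torsion, `= 1` by `vr_inj`; `zq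
(ordZ (w_i) x) = m o_i w = 0`, so `x = 1`, `m w = 0`, `w = 0`). So `e^r DT f u = det (f_i(ι u_k)) DT o u`; on the left `c` acts as `-1` (the proved row `ANT` of RB, `r
≥ 1`), so it is `(2n)^r DT f u`. With `Rub`: `d_f (2n)^r DT f u = (2n)^r zq y`, so `d_f DT f u = zq y`. By the proved row `UNI` of RB there is `m ≠ 0` independent of
`f` with `m DT f u ∈ zq ℤ[G]`; let `d` be the odd part of `m`, then `gcd (m, d_f)` divides `d` and `d DT f u ∈ zq ℤ[G]` for all `f` (as in RUB of `RB/Spec5.lean`; `DT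
f` is linear). `toQ` is `zq` by definition -/
def TR2_stmt : Prop := ∀ (F H : Type) [Field F] [NumberField F] [Field H] [NumberField H] [Algebra F H] [IsAbelianGalois F H] [IsCMField H] (r : ℕ), 1 ≤ r → ∀ (D :
  RData F H r) (W : Type) [AddCommGroup W] [Module (MonoidAlgebra ℚ (H ≃ₐ[F] H)) W] (ι : Additive (Ut F H (D.T : Set (HOS F)) (Set.range D.v)) →+ W), isQU (F := F)
  (Ut F H (D.T : Set (HOS F)) (Set.range D.v)) ι → ∀ o : Fin r → W →ₗ[MonoidAlgebra ℚ (H ≃ₐ[F] H)] MonoidAlgebra ℚ (H ≃ₐ[F] H), (∀ j (x : Ut F H (D.T : Set (HOS F))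
  (Set.range D.v)), o j (ι (Additive.ofMul x)) = zq (ordZ F (D.w j) ((x : Hˣ) : H))) → ∀ u : ⋀[MonoidAlgebra ℚ (H ≃ₐ[F] H)]^r (Wm D.c W), Rub D (DT (fun j => (o
  j).comp (Wm D.c W).subtype) u) → ∃ d : ℕ, Odd d ∧ d • u ∈ RL D.c W ι r

/-! ### Changing `V` -/

/-- **REL** (short to medium; from PWR, FCT). The same set `V` with another order and other primes `w`. `D'.v j = D.v (e j)` with a permutation `e` (both `v` are
injective), `D'.w j = act (τ_j) (D.w (e j))` (FCT clause 4). `UU D' = UU D`, `D'.c = D.c` (`RData_c_eq`). Let `n, u'` be a dual system of `D'` and put `u_{e j} = pw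
(single τ_j⁻¹ 1) (u'_j)`. By FCT clause 8, `ord'_i = τ_i⁻¹ ord_{e i}`, so `ord_{e i}(u_{e j}) = τ_i τ_j⁻¹ ord'_i(u'_j) = δ_ij n (1 - c)`: a dual system of `D`. `Rub D
Θ` for `u` and `φ_{e i} = φ'_i`: `det (φ'_i(u'_j)) = ∏_j τ_j det (φ_{e i}(u_{e j})) = (∏ τ_j) det (φ_i(u_j))` (`Matrix.det_submatrix_equiv_self`,
`Matrix.det_mul_row`/`det_mul_column`) -/
def REL_stmt : Prop := ∀ (F H : Type) [Field F] [NumberField F] [Field H] [NumberField H] [Algebra F H] [IsAbelianGalois F H] [IsCMField H] (r : ℕ) (D D' : RData F H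
  r), D'.S = D.S → D'.T = D.T → Set.range D'.v = Set.range D.v → ∀ Θ : QGr F H, Rub D Θ → Rub D' Θ

/-- **ADD** (medium; from DTA, IDN, PWR, FCT). Adding a prime generated by the others. Let `n, u` be a dual system of `D'` and `φ_i` homomorphisms on `UU D'`.
`(u_{j+1})_j` is a dual system of `D`: `ord_0(u_{j+1}) = 0`, so `u_{j+1} ∈ UU D` (FCT clauses 5, 6). `UU D ≤ UU D'`. `x` is given with `ord_0(x) = d (1 - c)`. By IDN
(for `x`, `φ_i`, `D'`): `2n φ_i(x) = ∑_j ord_j(x) φ_i(u_j)`; `c ord_j(x) = - ord_j(x)` (IDN for `φ = ord_j`), so `ord_j(x) = (1 - c) b_j` (FCT clause 7); `(1 - c)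
φ_i(u_j) = 2 φ_i(u_j)` (IDN). So `2n φ_i(x) = 2d φ_i(u_0) + 2 ∑_{j ≥ 1} b_j φ_i(u_j)`; divide by 2 (`ℤ[G]` is torsion free): this is the hypothesis of DTA with `M_ij =
φ_i(u_j)`. The ideal `I`: all `z ∈ ℤ[G]` such that `m Θ toQ z = (2n)^(r+1) toQ y` for some odd `m` and some `y`. `φ_i(x) = (1 - c) y_i` (IDN, FCT), `Θ toQ (n φ_i(x)
minor) = 2n toQ(y_i) Θ toQ (minor)` as `(1 - c) Θ = 2 Θ`, and `Rub D Θ` for the minor (homomorphisms `φ_k`, `k ≠ i`, restricted to `UU D`): in `I`. So `d det M ∈ I` and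
`d` is odd -/
def ADD_stmt : Prop := ∀ (F H : Type) [Field F] [NumberField F] [Field H] [NumberField H] [Algebra F H] [IsAbelianGalois F H] [IsCMField H] (r : ℕ) (D : RData F H r)
  (D' : RData F H (r + 1)), D'.S = D.S → D'.T = D.T → (∀ i : Fin r, D'.v i.succ = D.v i ∧ D'.w i.succ = D.w i) → (∃ (d : ℕ) (x : Hˣ), Odd d ∧ x ∈ UU D' ∧ (x : H) *
  D'.c (x : H) = 1 ∧ ordZ F (D'.w 0) (x : H) = d • (1 - MonoidAlgebra.single D'.c 1)) → ∀ Θ : QGr F H, sg D.c * Θ = -Θ → Rub D Θ → Rub D' Θ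

/-- **REM** (medium; from EXT, DSY, PWR, FCT). Removing a prime. Let `n, u` be a dual system of `D`, `φ_i` homomorphisms on `UU D`, `n', u'` a dual system of `D'` (DSY).
`(u'_0^n, u_1^{n'}, ..., u_r^{n'})` is a dual system of `D'` of modulus `n n'` (`ord_0(u_j) = 0` for `j ≥ 1`, since `u_j ∈ UU D`). Extend `φ_i` to `UU D'` (EXT) and
apply `Rub D' Θ` with the homomorphisms `ord_0, φ_1, ..., φ_r`: the first row of the matrix is `(n n' (1 - c), 0, ..., 0)`, so the determinant is `n n' (1 - c) n'^r det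
(φ_i(u_j))` (`Matrix.det_succ_row_zero`, or `Matrix.det_fin_succ...`). As `(1 - c) Θ = 2 Θ`: `d Θ 2 n n' n'^r toQ det = (2 n n')^(r+1) toQ y`, so `d Θ toQ det = (2n)^r
toQ y` (`ℚ[G]` is torsion free) -/
def REM_stmt : Prop := ∀ (F H : Type) [Field F] [NumberField F] [Field H] [NumberField H] [Algebra F H] [IsAbelianGalois F H] [IsCMField H] (r : ℕ) (D : RData F H r)
  (D' : RData F H (r + 1)), D'.S = D.S → D'.T = D.T → (∀ i : Fin r, D'.v i.succ = D.v i ∧ D'.w i.succ = D.w i) → ∀ Θ : QGr F H, sg D.c * Θ = -Θ → Rub D' Θ → Rub D Θ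

/-- **SUB** (short to medium; from REL, REM). Induction on `s`. `r ≤ s` (cardinality of the ranges of the injective maps `v`). If the ranges are equal then `r = s` and
REL. Otherwise some `E.v i₀` is not in the range of `D.v`, so `s = s' + 1`; let `E₁ = sub E (swap 0 i₀)` (the same set; `Rub E₁ Θ` by REL) and `E₂ = sub E₁ Fin.succ`;
REM for `E₂`, `E₁` gives `Rub E₂ Θ`, and the range of `D.v` is contained in that of `E₂.v`; induction hypothesis. `E.c = D.c` by `RData_c_eq` -/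
def SUB_stmt : Prop := ∀ (F H : Type) [Field F] [NumberField F] [Field H] [NumberField H] [Algebra F H] [IsAbelianGalois F H] [IsCMField H] (r s : ℕ) (D : RData F H
  r) (E : RData F H s), E.S = D.S → E.T = D.T → Set.range D.v ⊆ Set.range E.v → ∀ Θ : QGr F H, sg D.c * Θ = -Θ → Rub E Θ → Rub D Θ

/-- **ENL** (medium; from ADD, FCT). Induction: for every `k ≤ r` there are `s` and `E : RData F H s` with the same `S`, `T`, `Set.range D₀.v ⊆ Set.range E.v`, `D.v i ∈
Set.range E.v` for all `i < k`, the range of `E.v` contained in the union of the two ranges, and `Rub E Θ`. Step: `v = D.v k`, `w = D.w k`. If `v` is in the range of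
`E.v` nothing is to do. Otherwise `E' = addP E v w ...` and ADD for `E`, `E'`: `v` is not in the range of `D₀.v`, take `d, x` from `Generates`. `x ∈ UU E'` (FCT clause
5 for `E'`: for a prime `Q` not above the range of `E'.v` the value `ord Q x` is 0, because `Q` is not above `V₀` and not above `v`, so `Q ≠ w, c w`), and `ordZ F w x =
d (1 - c)`: the coefficient at `τ` is `ord (act τ w) x` (ORZ), `act τ w` is above `v`, not above `V₀`, so this is `d` for `τ = 1`, `-d` for `τ = c`, 0 otherwise (FCT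
clause 3 for `E'`, index 0) -/
def ENL_stmt : Prop := ∀ (F H : Type) [Field F] [NumberField F] [Field H] [NumberField H] [Algebra F H] [IsAbelianGalois F H] [IsCMField H] (r₀ r : ℕ) (D₀ : RData F
  H r₀) (D : RData F H r), D₀.S = D.S → D₀.T = D.T → Generates D₀ D → ∀ Θ : QGr F H, sg D.c * Θ = -Θ → Rub D₀ Θ → ∃ (s : ℕ) (E : RData F H s), E.S = D.S ∧ E.T = D.T
  ∧ Set.range D.v ⊆ Set.range E.v ∧ Rub E Θ

/-! ### Generators of the dual -/

/-- **DGS** (medium; from DTX, IDN, PWR, FCT). Let `n, u` be a dual system of `D`, `φ_i` homomorphisms on `UU D`, and `g_k` as in `DualGen`: `d_i φ_i(x) = ∑_k a_ik g_k(x)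
+ ∑_l b_il ord_l(x)` for `x ∈ U^-`, `d_i` odd. DTX with `m = n (1 - c)`, `A_ij = d_i φ_i(u_j)`, `g_kj = g_k(u_j)`; `det A = (∏ d_i) det (φ_i(u_j))`. The ideal `I`: all
`z ∈ ℤ[G]` such that `d Θ toQ z = (2n)^(r+1) toQ y` for some odd `d` and some `y`. The hypothesis of DTX: `D' = sub D j₀.succAbove` has the dual system `u_{j₀.succAbove
j}` (`ord_{j₀}` of it is 0, so it is in `UU D'`; FCT clauses 5, 6), the `g_k` and `ord_l` are homomorphisms on `UU D' ≤ UU D` (PWR), so `Rub D' Θ` says `d Θ toQ (minor)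
= (2n)^r toQ y`, and `Θ toQ (n (1 - c) minor) = 2n Θ toQ (minor)` -/
def DGS_stmt : Prop := ∀ (F H : Type) [Field F] [NumberField F] [Field H] [NumberField H] [Algebra F H] [IsAbelianGalois F H] [IsCMField H] (r N : ℕ) (D : RData F H
  (r + 1)), N ≤ r → DualGen D N → ∀ Θ : QGr F H, sg D.c * Θ = -Θ → (∀ D' : RData F H r, D'.S = D.S → D'.T = D.T → Set.range D'.v ⊆ Set.range D.v → Rub D' Θ) → Rub D
  Θ

/-- **DGR** (short to medium; from EXT, PWR, FCT). `UU D' ≤ UU D` (EXT, with the roles exchanged: the range of `D'.v` is contained in that of `D.v`). The `g_k` restrict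
to homomorphisms on `UU D'`. A homomorphism `φ'` on `UU D'` extends to `φ` on `UU D` (EXT), `d φ(x) = ∑ a_k g_k(x) + ∑_i b_i ordZ (D.w i) x` for `x ∈ (UU D)^-`, in
particular for `x ∈ (UU D')^-`. If `D.v i` is not in the range of `D'.v` then `ordZ (D.w i) x = 0` for `x ∈ UU D'` (FCT clauses 5, 6), and if `D.v i = D'.v i'` then
`D.w i = act τ (D'.w i')` and `ordZ (D.w i) x = τ⁻¹ ordZ (D'.w i') x` (FCT clauses 4, 8); `i ↦ i'` is injective. Define `b'_{i'}` accordingly (`∑_i` over the `i` with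
`D.v i` in the range, reindex; or `b'_{i'} = ∑_{i : D.v i = D'.v i'} τ_i⁻¹ b_i`) -/
def DGR_stmt : Prop := ∀ (F H : Type) [Field F] [NumberField F] [Field H] [NumberField H] [Algebra F H] [IsAbelianGalois F H] [IsCMField H] (r s N : ℕ) (D : RData F
  H r) (D' : RData F H s), D'.S = D.S → D'.T = D.T → Set.range D'.v ⊆ Set.range D.v → DualGen D N → DualGen D' N

/-- **CDV** (short; from FCT). The coefficient of `cD w E` at `τ` is `E (act τ w)`. First clause: compare with ORZ. Third clause: `E (act c P) = - E P`, `act (c⁻¹ τ) w =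
act c⁻¹ (act τ w)`. Fourth clause: `E = single (act τ (w_i)) 1 - single (act (c τ) (w_i)) 1`; the coefficient of `cD (w_j) E` at `ρ` is `E(ρ w_j)`, which is 1 for `j =
i, ρ = τ`, `-1` for `j = i, ρ = c τ`, 0 otherwise (FCT clause 3) -/
def CDV_stmt : Prop := ∀ (F H : Type) [Field F] [NumberField F] [Field H] [NumberField H] [Algebra F H] [IsAbelianGalois F H] [IsCMField H] (r : ℕ) (D : RData F H
  r), (∀ (w : HOS H) (E : Dv H) (x : H), (∀ P, E P = ord P x) → cD w E = ordZ F w x) ∧ (∀ (w : HOS H) (E E' : Dv H), cD (F := F) w (E + E') = cD w E + cD w E') ∧ (∀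
  (w : HOS H), ∀ E ∈ DV (D.c : H ≃+* H) {P : HOS H | P.under (𝓞 F) ∈ Set.range D.v}, MonoidAlgebra.single D.c 1 * cD w E = - cD w E) ∧ ∀ (i : Fin r) (τ : H ≃ₐ[F] H),
  ∃ E ∈ DV (D.c : H ≃+* H) {P : HOS H | P.under (𝓞 F) ∈ Set.range D.v}, ∀ j, cD (D.w j) E = if j = i then (1 - MonoidAlgebra.single D.c 1) * MonoidAlgebra.single τ 1
  else 0

/-- **RNK** (medium; from LAM, DSY, IDN, PWR, FCT, CDV). Let `n, u` be a dual system and `g_1, ..., g_N` the divisors of `MinusRank`. For a homomorphism `φ` on `UU D` and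
`E ∈ DV` let `λ_φ(E)` be the coefficient at 1 of `∑_j cD (w_j) E * φ(u_j)`, an integer, additive in `E` and in `φ`. If `E = div x`, `x ∈ Ml`, then `x ∈ UU D`, `λ_φ(E)`
is the coefficient at 1 of `∑_j ord_j(x) φ(u_j) = 2n φ(x)` (IDN), in `2n ℤ`. LAM for the additive group `A` of the homomorphisms on `UU D` (e.g. the subgroup of `Hˣ →
ℤ[G]` of the `φ` with `IsGH (UU D) φ`) and `φ ↦ (λ_φ(g_k))_k` gives `f_1, ..., f_N`; these are the generators for `DualGen`. Let `φ` be a homomorphism, `λ_φ(g_k) = ∑_l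
a_l λ_{f_l}(g_k)` for all `k` and `ψ = φ - ∑ a_l f_l`; so `λ_ψ(g_k) = 0`, and for every `E ∈ DV` there is an odd `d` with `d λ_ψ(E) ∈ 2n ℤ` (`MinusRank`). Take the
product `d` of these for the finitely many `E` of CDV clause 4 with `i`, `τ⁻¹`: `λ_ψ(E)` is the coefficient at 1 of `(1 - c) τ⁻¹ ψ(u_i) = 2 τ⁻¹ ψ(u_i)`, i.e. twice the
coefficient of `ψ(u_i)` at `τ`. So `d ψ(u_i) = n z_i` with `z_i ∈ ℤ[G]`, `c z_i = - z_i`, `z_i = (1 - c) b_i` (FCT clause 7). For `x ∈ U^-`: `2n d ψ(x) = ∑_j ord_j(x) n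
(1 - c) b_j = 2n ∑_j b_j ord_j(x)` (IDN), so `d φ(x) = ∑ d a_l f_l(x) + ∑_j b_j ord_j(x)` -/
def RNK_stmt : Prop := ∀ (F H : Type) [Field F] [NumberField F] [Field H] [NumberField H] [Algebra F H] [IsAbelianGalois F H] [IsCMField H] (r N : ℕ) (D : RData F H
  r), MinusRank D N → DualGen D N

end Pool.Agent.VR
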