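import Pool.Agent.helper51.VR.Spec

/-!
# Project vr (MP_24e2e7_nt), block B: a finite set of primes which generates always exists

RULES as in `Spec.lean` (files `Pool/Agent/<seat>/VR/XXX.lean`, import this file).
-/

set_option autoImplicit false

namespace Pool.Agent.VR

open Pool.Agent.RB NumberField IsDedekindDomain Module
open scoped nonZeroDivisors Real Classical IsMulCommutative

/-- **FN1** (medium). Pigeonhole in the ray class group. By `fin_dcl` the group `Dv H / Pr H` is finite (`(Pr H).index = classNumber H ≠ 0`). For every class which contains some `Finsupp.single P 1` with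
`P ∈ W` choose one such prime `P_C ∈ W`. For `P ∈ W` of class `C` there is `y_P ≠ 0` with `div y_P = P - P_C`, a unit at all `Q ∈ T` (`P, P_C ∉ T`), so it has a residue in `(𝓞 H / Q)ˣ` for `Q ∈ T` (see
`RES_r`, `RES_r_mul`, `RES_r_eq_one`, `RES_hom` in `Pool/Agent/helper8/RB/RES.lean`). The map `P ↦ (C, (y_P mod Q)_{Q ∈ T})` from `W` to a finite set (`T` is finite, the residue fields are finite) has a
finite image; let `R` contain one prime for every value. If `P ∈ W` and `P' ∈ R` have the same value, then `y = y_P / y_P'` has the divisor `P - P'` and `y ≡ 1` modulo all `Q ∈ T`. -/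
def FN1_stmt : Prop := ∀ (H : Type) [Field H] [NumberField H] (T : Set (HOS H)), T.Finite → ∀ W : Set (HOS H), (∀ P ∈ W, P ∉ T) →
  ∃ R : Finset (HOS H), (∀ P ∈ R, P ∈ W) ∧ ∀ P ∈ W, ∃ P' ∈ R, ∃ y : H, y ≠ 0 ∧ (∀ Q ∈ T, Q.valuation H (y - 1) < 1) ∧
    ∀ Q : HOS H, ord Q y = (if Q = P then 1 else 0) - (if Q = P' then 1 else 0)

/-- **FN2** (medium; from FN1, FCT). `W` = the primes `P` of `H` with `P.under (𝓞 F)` outside `S` and `T` and completely split (`ncard = finrank F H`), `T_H` = the primes above `T`, a finite set (finitely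
many primes above each prime: e.g. `ncard`/`primesOver` finiteness, or: they contain a nonzero element). Let `R` be as in FN1 and `A` the finite set of the `P.under (𝓞 F)`, `P ∈ R`, together with `D₁.v 0`
(`r₁ ≥ 1`). `D₀`: `r₀ = A.card`, `v` = an enumeration of `A` (`Finset.equivFin`, `A.orderEmbOfFin` is not available), `w` = chosen primes above (exist: all are in `W` or `D₁.w 0`), the other fields from `D₁`.
Let `D` be given and `D.v i` not in `A`; `P = D.w i ∈ W`; take `P' ∈ R`, `y` from FN1, and `x = y / c(y)`, `c = D.c = D₁.c` (`RData_c_eq`), `d = 1`. `x c(x) = 1` as `c² = 1` (FCT); `x ≡ 1` modulo the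
primes above `T`, which are permuted by `c`; `ord Q x = ord Q y - ord (act c Q) y` (`ORD`, `c = c⁻¹`), and for `Q` not above `A` neither `Q` nor `act c Q` is `P'`, so this is `1` for `Q = P`, `-1` for
`Q = act c P` (`act c P ≠ P` by FCT clause 3), 0 otherwise. -/
def FN2_stmt : Prop := ∀ (F H : Type) [Field F] [NumberField F] [Field H] [NumberField H] [Algebra F H] [IsAbelianGalois F H]
  [IsCMField H] (r₁ : ℕ) (D₁ : RData F H r₁), 1 ≤ r₁ → ∃ (r₀ : ℕ) (D₀ : RData F H r₀), 1 ≤ r₀ ∧ D₀.S = D₁.S ∧ D₀.T = D₁.T ∧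
  ∀ (r : ℕ) (D : RData F H r), D.S = D₁.S → D.T = D₁.T → Generates D₀ D

end Pool.Agent.VR
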